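import Mathlib
import Pool.Agent.K1H44.DenseSys.Defs
import Pool.Agent.K1H44.DenseSys.Lower
import Pool.Agent.K1H44.DenseSys.Upper
import Pool.Agent.K1H44.DenseSys.Half
import Pool.Agent.K1H44.DenseSys.Below

set_option autoImplicit false

/-!
# Large pairwise intersecting subfamilies of dense set systems

`f n m c ε` is the largest `k` such that among any `m` subsets of an `n`-element set, each with more
than `c n` elements, there are `k` any two of which share more than `ε n` elements.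

For `0 < ε < c ≤ 1/2` and all `n, m ≥ 1` the function `f n m c ε` is `m` divided by a power of
`M = min(m, 2^n)`. The exponent `α` lies between two positive constants depending on `c` and `ε`, which
behave very differently at `c = 1/2` and below:

* for `c = 1/2` it is between `ε²/6` (for sparse systems) and about `4 ε`: sets close to a given set, or to
  its complement, form intersecting families, and one of the first `1/(4ε)` of these balls is not much
  smaller than the next one;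
* for `c < 1/2` it is between `K / log²(1/ε)` (for polynomially many sets) and `K' / log(1/ε)`: the lower
  bound for `f` is dependent random choice, the upper bound uses threshold sets.

In particular the conjecture `f(n, n, c, ε) > η n^(1/2)` is true for every `0 < c ≤ 1/2` (with any exponent
less than one in place of `1/2`), while `f(n, m, c, ε) ≥ η m` fails.

The starting modules `Helper297.Drc` (`drc_power`) and `Helper297.Family` (`family`), written for another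
problem, contain the dependent random choice bound for `ε = c^(s+1)` and the upper bound with `ε³/16`;
the bounds here are proved independently, and the bound for `c = 1/2` from below and the bound for
`c < 1/2` from above go beyond them.
-/

namespace Pool.Agent.Results.MP_cecf76_co.OrderOfGrowth

open Pool.Agent.K1H44.DenseSys

theorem min_rpow {n m : ℕ} {ε : ℝ} (hm : 1 ≤ m) (hε : 0 < ε) (hε1 : ε ≤ 1 / 2) :
    Real.exp (-(ε ^ 2 / 8 * min (Real.logb 2 m) (ε * n / 4))) ≤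
      (min (m : ℝ) (2 ^ n)) ^ (-(ε ^ 3 / 23)) := by
  have hm1 : (1 : ℝ) ≤ m := by exact_mod_cast hm
  have hM1 : 1 ≤ min (m : ℝ) (2 ^ n) := le_min hm1 (one_le_pow₀ (by norm_num))
  obtain ⟨M, hM⟩ : ∃ M : ℝ, M = min (m : ℝ) (2 ^ n) := ⟨_, rfl⟩
  rw [← hM] at hM1 ⊢
  have hlM : 0 ≤ Real.log M := Real.log_nonneg hM1
  have hl2 : 0 < Real.log 2 := Real.log_pos (by norm_num)
  have hl2' : Real.log 2 < 0.6931471808 := Real.log_two_lt_d9
  rw [Real.rpow_def_of_pos (by linarith)]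
  apply Real.exp_le_exp.mpr
  -- `min (logb 2 m) (ε n / 4) ≥ (ε / 4) logb 2 M`
  have h1 : ε / 4 * (Real.log M / Real.log 2) ≤ min (Real.logb 2 m) (ε * n / 4) := by
    have hlm : 0 ≤ Real.log m := Real.log_nonneg hm1
    apply le_min
    · have h2 : Real.log M ≤ Real.log m := by
        apply Real.log_le_log (by linarith)
        rw [hM]; exact min_le_left _ _
      have h3 : Real.log M / Real.log 2 ≤ Real.logb 2 m := by
        unfold Real.logb
        exact div_le_div_of_nonneg_right h2 hl2.le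
      have h4 : 0 ≤ Real.log M / Real.log 2 := div_nonneg hlM hl2.le
      nlinarith
    · have h2 : Real.log M ≤ n * Real.log 2 := by
        rw [← Real.log_pow]
        apply Real.log_le_log (by linarith)
        rw [hM]; exact min_le_right _ _
      have h3 : Real.log M / Real.log 2 ≤ n := by
        rw [div_le_iff₀ hl2]; exact h2
      nlinarith
  have h2 : ε ^ 2 / 8 * (ε / 4 * (Real.log M / Real.log 2)) ≤
      ε ^ 2 / 8 * min (Real.logb 2 m) (ε * n / 4) :=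
    mul_le_mul_of_nonneg_left h1 (by positivity)
  have h3 : Real.log M * (ε ^ 3 / 23) ≤ ε ^ 2 / 8 * (ε / 4 * (Real.log M / Real.log 2)) := by
    have h4 : ε ^ 2 / 8 * (ε / 4 * (Real.log M / Real.log 2)) =
        Real.log M * ε ^ 3 / (32 * Real.log 2) := by
      field_simp
      ring
    rw [h4]
    have h5 : Real.log M * (ε ^ 3 / 23) = Real.log M * ε ^ 3 / 23 := by ring
    rw [h5]
    apply div_le_div_of_nonneg_left (by positivity) (by positivity)
    nlinarith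
  linarith

theorem sparse {n m : ℕ} {c ε : ℝ} (hn : 1 ≤ n) (hm : 1 ≤ m) (hε : 0 < ε) (hε1 : ε ≤ 1 / 2)
    (hc : c ≤ 1 / 2) (hmn : (m : ℝ) ≤ 2 ^ (ε * n / 4)) :
    (f n m c ε : ℝ) ≤ 5 * (m : ℝ) ^ (1 - ε ^ 2 / 6) := by
  have hm1 : (1 : ℝ) ≤ m := by exact_mod_cast hm
  have hm0 : (0 : ℝ) < m := by linarith
  have h1 := upper (n := n) hn hm hε hε1 hc
  have h2 : Real.logb 2 m ≤ ε * n / 4 := by
    rw [Real.logb_le_iff_le_rpow (by norm_num) hm0]
    exact hmn
  rw [min_eq_left h2] at h1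
  refine h1.trans ?_
  rw [sub_eq_add_neg, Real.rpow_add hm0, Real.rpow_one, ← mul_assoc]
  apply mul_le_mul_of_nonneg_left _ (by positivity)
  rw [Real.rpow_def_of_pos hm0]
  apply Real.exp_le_exp.mpr
  have hl2 : 0 < Real.log 2 := Real.log_pos (by norm_num)
  have hl2' : Real.log 2 < 0.6931471808 := Real.log_two_lt_d9
  have hlm : 0 ≤ Real.log m := Real.log_nonneg hm1
  have h3 : Real.log m * (ε ^ 2 / 6) ≤ ε ^ 2 / 8 * Real.logb 2 m := by
    unfold Real.logb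
    have h4 : ε ^ 2 / 8 * (Real.log m / Real.log 2) = Real.log m * ε ^ 2 / (8 * Real.log 2) := by
      field_simp
    rw [h4]
    have h5 : Real.log m * (ε ^ 2 / 6) = Real.log m * ε ^ 2 / 6 := by ring
    rw [h5]
    apply div_le_div_of_nonneg_left (by positivity) (by positivity)
    nlinarith
  linarith

theorem conj {n m : ℕ} {c ε θ : ℝ} (hn : 1 ≤ n) (hm : 1 ≤ m) (hc0 : 0 < c) (hc : c ≤ 1 / 2)
    (hθ0 : 0 ≤ θ) (hθ : θ < 1) (hε : 0 < ε) (hε1 : ε ≤ c ^ (1 + 1 / (1 - θ))) :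
    c / 4 * (m : ℝ) ^ θ ≤ (f n m c ε : ℝ) := by
  have hm1 : (1 : ℝ) ≤ m := by exact_mod_cast hm
  have hm0 : (0 : ℝ) < m := by linarith
  have h1θ : 0 < 1 - θ := by linarith
  have hlc : Real.log c < 0 := Real.log_neg hc0 (by linarith)
  have hlogε : Real.log ε ≤ (1 + 1 / (1 - θ)) * Real.log c := by
    rw [← Real.log_rpow hc0]
    exact Real.log_le_log hε hε1
  have h1 : Real.log (c / ε) = Real.log c - Real.log ε := Real.log_div hc0.ne' hε.ne'
  have h2 : -Real.log c / (1 - θ) ≤ Real.log (c / ε) := by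
    rw [h1]
    have : (1 + 1 / (1 - θ)) * Real.log c = Real.log c - (-Real.log c / (1 - θ)) := by ring
    linarith
  have h3 : 0 < Real.log (c / ε) := lt_of_lt_of_le (div_pos (by linarith) h1θ) h2
  have hεc : ε < c := by
    by_contra h
    push Not at h
    have : Real.log c ≤ Real.log ε := Real.log_le_log hc0 h
    linarith
  have ha : Real.log (1 / c) / Real.log (c / ε) ≤ 1 - θ := by
    rw [div_le_iff₀ h3, one_div, Real.log_inv]
    rw [div_le_iff₀ h1θ] at h2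
    linarith
  have ha0 : 0 ≤ Real.log (1 / c) / Real.log (c / ε) := by
    apply div_nonneg _ h3.le
    rw [one_div, Real.log_inv]
    linarith
  obtain ⟨M, hM⟩ : ∃ M : ℝ, M = min (m : ℝ) (2 ^ n) := ⟨_, rfl⟩
  have hM1 : 1 ≤ M := by rw [hM]; exact le_min hm1 (one_le_pow₀ (by norm_num))
  have hMm : M ≤ m := by rw [hM]; exact min_le_left _ _
  have h4 := lower (m := m) hn hm hε hεc (by linarith)
  rw [← hM] at h4
  refine le_trans ?_ h4
  have h5 : (2 * M) ^ (-(1 - θ)) ≤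
      (2 * M) ^ (-(Real.log (1 / c) / Real.log (c / ε))) :=
    Real.rpow_le_rpow_of_exponent_le (by linarith) (by linarith)
  have h6 : (2 * (m : ℝ)) ^ (-(1 - θ)) ≤ (2 * M) ^ (-(1 - θ)) := by
    apply Real.rpow_le_rpow_of_nonpos (by linarith) (by linarith) (by linarith)
  have h7 : (2 * (m : ℝ)) ^ (-(1 - θ)) = 2 ^ (-(1 - θ)) * (m : ℝ) ^ (-(1 - θ)) :=
    Real.mul_rpow (by norm_num) hm0.le
  have h8 : (1 / 2 : ℝ) ≤ 2 ^ (-(1 - θ)) := by
    have : (1 / 2 : ℝ) = 2 ^ (-1 : ℝ) := by rw [Real.rpow_neg_one]; norm_num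
    rw [this]
    exact Real.rpow_le_rpow_of_exponent_le (by norm_num) (by linarith)
  have h9 : (m : ℝ) ^ θ = m * (m : ℝ) ^ (-(1 - θ)) := by
    have h10 : (m : ℝ) ^ (1 + -(1 - θ)) = m * (m : ℝ) ^ (-(1 - θ)) := by
      rw [Real.rpow_add hm0, Real.rpow_one]
    rw [← h10]
    congr 1
    ring
  calc c / 4 * (m : ℝ) ^ θ = c / 2 * m * (1 / 2 * (m : ℝ) ^ (-(1 - θ))) := by rw [h9]; ring
    _ ≤ c / 2 * m * (2 ^ (-(1 - θ)) * (m : ℝ) ^ (-(1 - θ))) := by
        have := Real.rpow_pos_of_pos hm0 (-(1 - θ))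
        gcongr
    _ = c / 2 * m * (2 * (m : ℝ)) ^ (-(1 - θ)) := by rw [h7]
    _ ≤ c / 2 * m * (2 * M) ^ (-(Real.log (1 / c) / Real.log (c / ε))) := by
        apply mul_le_mul_of_nonneg_left (h6.trans h5) (by positivity)

theorem not_linear {c ε η : ℝ} (hc : c ≤ 1 / 2) (hε : 0 < ε) (hε1 : ε ≤ 1 / 2) (hη : 0 < η) :
    ∃ N : ℕ, ∀ n m : ℕ, N ≤ m → m ≤ n → (f n m c ε : ℝ) < η * m := by
  -- `n ≤ 2^(ε n / 4)` for large `n`
  have h1 : ∃ N1 : ℕ, ∀ n : ℕ, N1 ≤ n → (n : ℝ) ≤ 2 ^ (ε * n / 4) := by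
    have hb : (1 : ℝ) < 2 ^ (ε / 4) := Real.one_lt_rpow (by norm_num) (by positivity)
    have ht := tendsto_pow_const_div_const_pow_of_one_lt 1 hb
    have hev := (ht.eventually_le_const (show (0 : ℝ) < 1 by norm_num)).exists_forall_of_atTop
    obtain ⟨N1, hN1⟩ := hev
    refine ⟨N1, fun n hn => ?_⟩
    have h2 := hN1 n hn
    rw [div_le_iff₀ (by positivity), one_mul, pow_one] at h2
    refine h2.trans_eq ?_
    rw [← Real.rpow_natCast, ← Real.rpow_mul (by norm_num)]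
    congr 1
    ring
  -- `5 m^(-ε²/6) < η` for large `m`
  have h2 : ∃ N2 : ℕ, ∀ m : ℕ, N2 ≤ m → 5 * (m : ℝ) ^ (-(ε ^ 2 / 6)) < η := by
    have ht : Filter.Tendsto (fun m : ℕ => 5 * (m : ℝ) ^ (-(ε ^ 2 / 6))) Filter.atTop
        (nhds (5 * 0)) :=
      ((tendsto_rpow_neg_atTop (show 0 < ε ^ 2 / 6 by positivity)).comp
        tendsto_natCast_atTop_atTop).const_mul 5
    rw [mul_zero] at ht
    exact (ht.eventually_lt_const hη).exists_forall_of_atTop
  obtain ⟨N1, hN1⟩ := h1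
  obtain ⟨N2, hN2⟩ := h2
  refine ⟨max 1 (max N1 N2), fun n m hm hmn => ?_⟩
  have hm1 : 1 ≤ m := le_trans (le_max_left _ _) hm
  have hmN1 : N1 ≤ m := le_trans ((le_max_left _ _).trans (le_max_right _ _)) hm
  have hmN2 : N2 ≤ m := le_trans ((le_max_right _ _).trans (le_max_right _ _)) hm
  have hm0 : (0 : ℝ) < m := by exact_mod_cast hm1
  have h3 := sparse (c := c) (hm1.trans hmn) hm1 hε hε1 hc
    ((show (m : ℝ) ≤ n by exact_mod_cast hmn).trans (hN1 n (hmN1.trans hmn)))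
  refine lt_of_le_of_lt h3 ?_
  rw [sub_eq_add_neg, Real.rpow_add hm0, Real.rpow_one]
  have h4 := hN2 m hmN2
  calc 5 * ((m : ℝ) * (m : ℝ) ^ (-(ε ^ 2 / 6))) = (5 * (m : ℝ) ^ (-(ε ^ 2 / 6))) * m := by ring
    _ < η * m := mul_lt_mul_of_pos_right h4 hm0

/-- **MP_cecf76_co, Q1.** The growth of `f n m c ε` for `c ≤ 1/2`.

1. and 2.: for all `n, m ≥ 1` it is, up to constant factors, between `m M^(-a)` and `m M^(-b)`,
where `M = min(m, 2^n)`, `a = log(1/c) / log(c/ε)` (which tends to `0` as `ε → 0`) and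
`b = ε³/23 > 0`; for `m ≤ 2^(εn/4)` one may take `b = ε²/6`.

3.: for `c = 1/2` one may take `a = 1/L` as soon as `(4 L - 2) ε ≤ 1`.

4.: for `c < 1/2` and `m ≤ n^b`, `n` large, the function is at most
`4 m^(1 - (1-2c)^4 / (1100 log(1/ε)^2))`.

5.: the conjectured bound `f(n, n, c, ε) ≥ η n^(1/2)` holds for all `0 < c ≤ 1/2` as soon as
`ε ≤ c³`, with `η = c/4`; more generally `f(n, m, c, ε) ≥ (c/4) m^θ` for every `θ < 1` as soon as
`ε ≤ c^(1 + 1/(1-θ))`.

6.: the bound `f(n, m, c, ε) ≥ η m` for `m < n` fails for all `c ≤ 1/2` and all small `ε, η > 0`. -/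
theorem result :
    (∀ (n m : ℕ) (c ε : ℝ), 1 ≤ n → 1 ≤ m → 0 < ε → ε < c → c ≤ 1 / 2 →
      c / 2 * m * (2 * min (m : ℝ) (2 ^ n)) ^ (-(Real.log (1 / c) / Real.log (c / ε))) ≤
        (f n m c ε : ℝ)) ∧
    ((∀ (n m : ℕ) (c ε : ℝ), 1 ≤ n → 1 ≤ m → 0 < ε → ε ≤ 1 / 2 → c ≤ 1 / 2 →
      (f n m c ε : ℝ) ≤ 5 * m * (min (m : ℝ) (2 ^ n)) ^ (-(ε ^ 3 / 23))) ∧
    (∀ (n m : ℕ) (c ε : ℝ), 1 ≤ n → 1 ≤ m → 0 < ε → ε ≤ 1 / 2 → c ≤ 1 / 2 →
      (m : ℝ) ≤ 2 ^ (ε * n / 4) → (f n m c ε : ℝ) ≤ 5 * (m : ℝ) ^ (1 - ε ^ 2 / 6))) ∧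
    (∀ (n m L : ℕ) (ε : ℝ), 1 ≤ n → 1 ≤ m → 1 ≤ L → 0 ≤ ε → (4 * (L : ℝ) - 2) * ε ≤ 1 →
      1 / 2 * m * (min (m : ℝ) (2 ^ n)) ^ (-(1 / (L : ℝ))) ≤ (f n m (1 / 2) ε : ℝ)) ∧
    (∀ (b : ℕ) (c ε : ℝ), 0 < c → c < 1 / 2 → 0 < ε → ε ≤ 1 / 2 →
      ∃ N : ℕ, ∀ n m : ℕ, N ≤ n → 1 ≤ m → m ≤ n ^ b →
        (f n m c ε : ℝ) ≤ 4 * (m : ℝ) ^ (1 - (1 - 2 * c) ^ 4 / (1100 * Real.log (1 / ε) ^ 2))) ∧
    (∀ (c θ ε : ℝ), 0 < c → c ≤ 1 / 2 → 0 ≤ θ → θ < 1 → 0 < ε → ε ≤ c ^ (1 + 1 / (1 - θ)) →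
      ∀ n m : ℕ, 1 ≤ n → 1 ≤ m → c / 4 * (m : ℝ) ^ θ ≤ (f n m c ε : ℝ)) ∧
    (∀ (c ε η : ℝ), c ≤ 1 / 2 → 0 < ε → ε ≤ 1 / 2 → 0 < η →
      ∃ N : ℕ, ∀ n m : ℕ, N ≤ m → m ≤ n → (f n m c ε : ℝ) < η * m) := by
  refine ⟨fun n m c ε hn hm hε hc hc1 => lower hn hm hε hc (by linarith), ⟨?_, ?_⟩, ?_, ?_, ?_, ?_⟩
  · intro n m c ε hn hm hε hε1 hc
    refine (upper hn hm hε hε1 hc).trans ?_
    exact mul_le_mul_of_nonneg_left (min_rpow hm hε hε1) (by positivity)
  · intro n m c ε hn hm hε hε1 hc hmn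
    exact sparse hn hm hε hε1 hc hmn
  · intro n m L ε hn hm hL hε hLε
    refine lower_half hn hε hL hLε _ (le_min (by exact_mod_cast hm) (one_le_pow₀ (by norm_num))) ?_
    exact fun B => card_image_le' B
  · intro b c ε hc0 hc hε hε1
    exact below b hc0 hc hε hε1
  · intro c θ ε hc0 hc hθ0 hθ hε hε1 n m hn hm
    exact conj hn hm hc0 hc hθ0 hθ hε hε1
  · intro c ε η hc hε hε1 hη
    exact not_linear hc hε hε1 hη

end Pool.Agent.Results.MP_cecf76_co.OrderOfGrowth
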